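import Mathlib

/-!
# MP_2aa471_co: the `k`-general position number of the `n`-dimensional integer grid

We prove `gp^k (P_∞^n) = (k - 1) ^ (2 ^ (n - 1))` for all `k ≥ 2` and `n ≥ 1`.

Upper bound: sort more than `(k - 1) ^ (2 ^ (n - 1))` points by the first coordinate and apply the
Erdős–Szekeres theorem to the other coordinates one after another. This leaves `k` points on which
every coordinate is monotone, and these lie on a common geodesic.

Lower bound: let `q = k - 1` and number the sign vectors `s` of length `n` with first entry `1` by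
`t < 2 ^ (n - 1)`. To each word `a` of `2 ^ (n - 1)` digits less than `q` we assign the point with
coordinates `∑ t, s_t(j) a_t q ^ t`. For two words the most significant different digit `t`
determines the signs of the differences of all coordinates; they are given by `s_t` or by `-s_t`. For
points on a common geodesic this `t` is always the same, so that their words have different digits
at the place `t`, and there are at most `q` of them.
-/

set_option autoImplicit false

namespace Pool.Agent.Results.MP_2aa471_co.GridGeneralPosition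

open Finset

/-! ## Definitions -/

/-- the vertices of `T` lie on a common geodesic: some shortest path (a walk whose length is the
distance of its ends) contains all of them -/
def OnCommonGeodesic {V : Type} (G : SimpleGraph V) (T : Finset V) : Prop :=
  ∃ (u v : V) (w : G.Walk u v), w.length = G.dist u v ∧ ∀ x ∈ T, x ∈ w.support

/-- `S` is a `k`-general position set: no `k` distinct vertices of `S` lie on a common geodesic -/
def IsKGP {V : Type} (k : ℕ) (G : SimpleGraph V) (S : Set V) : Prop :=
  ∀ T : Finset V, (T : Set V) ⊆ S → T.card = k → ¬ OnCommonGeodesic G T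

/-- the `k`-general position number: the supremum, in `ℕ∞`, of the cardinalities of the
`k`-general position sets -/
noncomputable def gpk {V : Type} (k : ℕ) (G : SimpleGraph V) : ℕ∞ :=
  ⨆ S : {S : Set V // IsKGP k G S}, S.1.encard

/-- the `n`-dimensional infinite grid: points of `ℤ ^ n` are adjacent when they differ by one in
exactly one coordinate -/
def grid (n : ℕ) : SimpleGraph (Fin n → ℤ) where
  Adj x y := ∃ i, |x i - y i| = 1 ∧ ∀ j, j ≠ i → x j = y j
  symm := ⟨fun x y ⟨i, h1, h2⟩ => ⟨i, by rw [abs_sub_comm]; exact h1, fun j hj => (h2 j hj).symm⟩⟩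
  loopless := ⟨fun x ⟨i, h, _⟩ => by simp at h⟩

/-! ## Distances in the grid -/

theorem dist_of {V : Type} {G : SimpleGraph V} (D : V → V → ℕ) (h0 : ∀ u, D u u = 0)
    (h1 : ∀ u w v, G.Adj u w → D u v ≤ D w v + 1)
    (h2 : ∀ u v, u ≠ v → ∃ w, G.Adj u w ∧ D u v = D w v + 1) :
    ∀ u v, G.Reachable u v ∧ G.dist u v = D u v := by
  have hlow : ∀ u v (w : G.Walk u v), D u v ≤ w.length := by
    intro u v w
    induction w with
    | nil => simp [h0]
    | cons h p ih =>
      rw [SimpleGraph.Walk.length_cons]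
      exact (h1 _ _ _ h).trans (Nat.add_le_add_right ih 1)
  have hup : ∀ n u v, D u v = n → ∃ w : G.Walk u v, w.length = n := by
    intro n
    induction n with
    | zero =>
      intro u v h
      by_cases huv : u = v
      · subst huv
        exact ⟨.nil, rfl⟩
      · obtain ⟨w, _, hw⟩ := h2 u v huv
        omega
    | succ n ih =>
      intro u v h
      by_cases huv : u = v
      · subst huv
        rw [h0] at h
        omega
      · obtain ⟨w, hw, hw'⟩ := h2 u v huv
        obtain ⟨p, hp⟩ := ih w v (by omega)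
        exact ⟨.cons hw p, by simp [hp]⟩
  intro u v
  obtain ⟨w, hw⟩ := hup (D u v) u v rfl
  refine ⟨w.reachable, le_antisymm ?_ ?_⟩
  · rw [← hw]
    exact G.dist_le w
  · obtain ⟨p, hp⟩ := w.reachable.exists_walk_length_eq_dist
    rw [← hp]
    exact hlow u v p

/-- the `ℓ_1` distance -/
def D {n : ℕ} (x y : Fin n → ℤ) : ℕ := ∑ i, (x i - y i).natAbs

theorem dist_grid {n : ℕ} (x y : Fin n → ℤ) :
    (grid n).Reachable x y ∧ (grid n).dist x y = D x y := by
  refine dist_of D ?_ ?_ ?_ x y
  · intro u
    simp [D]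
  · rintro u w v ⟨i, hi, hj⟩
    unfold D
    rw [← add_sum_erase _ _ (mem_univ i), ← add_sum_erase _ _ (mem_univ i)]
    have h1 : ∑ j ∈ univ.erase i, (u j - v j).natAbs = ∑ j ∈ univ.erase i, (w j - v j).natAbs :=
      sum_congr rfl fun j hj' => by rw [hj j (ne_of_mem_erase hj')]
    rw [h1]
    have h2 : (u i - v i).natAbs ≤ (w i - v i).natAbs + 1 := by
      rcases abs_eq (by norm_num : (0 : ℤ) ≤ 1) |>.1 hi with h | h <;> omega
    omega
  · intro u v huv
    obtain ⟨i, hi⟩ := Function.ne_iff.1 huv
    refine ⟨Function.update u i (if u i < v i then u i + 1 else u i - 1), ⟨i, ?_, ?_⟩, ?_⟩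
    · rw [Function.update_self]
      split_ifs <;> simp
    · intro j hj
      rw [Function.update_of_ne hj]
    · unfold D
      rw [← add_sum_erase _ _ (mem_univ i), ← add_sum_erase _ _ (mem_univ i),
        Function.update_self]
      have h1 : ∑ j ∈ univ.erase i, (Function.update u i (if u i < v i then u i + 1 else u i - 1) j
          - v j).natAbs = ∑ j ∈ univ.erase i, (u j - v j).natAbs :=
        sum_congr rfl fun j hj' => by rw [Function.update_of_ne (ne_of_mem_erase hj')]
      rw [h1]
      have h2 : (u i - v i).natAbs =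
          ((if u i < v i then u i + 1 else u i - 1) - v i).natAbs + 1 := by
        split_ifs with h <;> omega
      omega

/-- two vertices of a geodesic of the grid: all coordinates are monotone from `u` to `v` -/
theorem between {n : ℕ} {u v : Fin n → ℤ} (w : (grid n).Walk u v)
    (hw : w.length = (grid n).dist u v) {a b : Fin n → ℤ} (ha : a ∈ w.support)
    (hb : b ∈ w.support) :
    (∀ i, (u i ≤ a i ∧ a i ≤ b i ∧ b i ≤ v i) ∨ (v i ≤ b i ∧ b i ≤ a i ∧ a i ≤ u i)) ∨
    (∀ i, (u i ≤ b i ∧ b i ≤ a i ∧ a i ≤ v i) ∨ (v i ≤ a i ∧ a i ≤ b i ∧ b i ≤ u i)) := by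
  classical
  have key : ∀ a b : Fin n → ℤ, D u a + D a b + D b v ≤ D u v →
      ∀ i, (u i ≤ a i ∧ a i ≤ b i ∧ b i ≤ v i) ∨ (v i ≤ b i ∧ b i ≤ a i ∧ a i ≤ u i) := by
    intro a b h i
    unfold D at h
    rw [← sum_add_distrib, ← sum_add_distrib] at h
    have h1 : ∀ j ∈ univ, (u j - v j).natAbs ≤
        (u j - a j).natAbs + (a j - b j).natAbs + (b j - v j).natAbs := by
      intro j _
      omega
    have h2 := (sum_eq_sum_iff_of_le h1).1 (le_antisymm (sum_le_sum h1) h) i (mem_univ i)
    omega
  have hlen : (w.takeUntil a ha).length + (w.dropUntil a ha).length = D u v := by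
    rw [← SimpleGraph.Walk.length_append, SimpleGraph.Walk.take_spec, hw, (dist_grid u v).2]
  have hD : ∀ {x y : Fin n → ℤ} (p : (grid n).Walk x y), D x y ≤ p.length := by
    intro x y p
    rw [← (dist_grid x y).2]
    exact SimpleGraph.dist_le p
  have hb' : b ∈ ((w.takeUntil a ha).append (w.dropUntil a ha)).support := by
    rw [SimpleGraph.Walk.take_spec]
    exact hb
  rw [SimpleGraph.Walk.mem_support_append_iff] at hb'
  rcases hb' with h | h
  · right
    apply key b a
    have h1 := hD ((w.takeUntil a ha).takeUntil b h)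
    have h2 := hD ((w.takeUntil a ha).dropUntil b h)
    have h3 := hD (w.dropUntil a ha)
    have h4 : ((w.takeUntil a ha).takeUntil b h).length +
        ((w.takeUntil a ha).dropUntil b h).length = (w.takeUntil a ha).length := by
      rw [← SimpleGraph.Walk.length_append, SimpleGraph.Walk.take_spec]
    omega
  · left
    apply key a b
    have h1 := hD ((w.dropUntil a ha).takeUntil b h)
    have h2 := hD ((w.dropUntil a ha).dropUntil b h)
    have h3 := hD (w.takeUntil a ha)
    have h4 : ((w.dropUntil a ha).takeUntil b h).length +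
        ((w.dropUntil a ha).dropUntil b h).length = (w.dropUntil a ha).length := by
      rw [← SimpleGraph.Walk.length_append, SimpleGraph.Walk.take_spec]
    omega

/-- points of a coordinatewise monotone sequence lie on a common geodesic -/
theorem chain_geodesic {n : ℕ} (f : ℕ → Fin n → ℤ)
    (hf : ∀ i, Monotone (fun t => f t i) ∨ Antitone (fun t => f t i)) (m : ℕ) :
    ∃ w : (grid n).Walk (f 0) (f m), w.length = (grid n).dist (f 0) (f m) ∧
      ∀ j ≤ m, f j ∈ w.support := by
  induction m with
  | zero =>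
    refine ⟨.nil, by simp, fun j hj => ?_⟩
    have : j = 0 := by omega
    subst this
    simp
  | succ m ih =>
    obtain ⟨w, hw, hw'⟩ := ih
    obtain ⟨p, hp⟩ := (dist_grid (f m) (f (m + 1))).1.exists_walk_length_eq_dist
    refine ⟨w.append p, ?_, fun j hj => ?_⟩
    · rw [SimpleGraph.Walk.length_append, hw, hp, (dist_grid _ _).2, (dist_grid _ _).2,
        (dist_grid _ _).2]
      unfold D
      rw [← sum_add_distrib]
      refine sum_congr rfl fun i _ => ?_
      rcases hf i with h | h
      · have h1 := h (Nat.zero_le m)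
        have h2 := h (Nat.le_succ m)
        simp only [Nat.succ_eq_add_one] at h1 h2
        omega
      · have h1 := h (Nat.zero_le m)
        have h2 := h (Nat.le_succ m)
        simp only [Nat.succ_eq_add_one] at h1 h2
        omega
    · rw [SimpleGraph.Walk.mem_support_append_iff]
      rcases Nat.lt_or_ge j (m + 1) with h | h
      · exact Or.inl (hw' j (by omega))
      · have : j = m + 1 := by omega
        subst this
        exact Or.inr p.end_mem_support

/-! ## The upper bound -/

/-- Mirsky's theorem for a strict order on a finite type -/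
theorem mirsky {N m k : ℕ} (r : Fin N → Fin N → Prop) (hirr : ∀ a, ¬ r a a)
    (htr : ∀ a b c, r a b → r b c → r a c) (h : m * k < N) :
    (∃ C : Finset (Fin N), C.card = m + 1 ∧ ∀ a ∈ C, ∀ b ∈ C, a ≠ b → r a b ∨ r b a) ∨
    (∃ C : Finset (Fin N), C.card = k + 1 ∧ ∀ a ∈ C, ∀ b ∈ C, ¬ r a b) := by
  classical
  by_contra hcon
  push Not at hcon
  obtain ⟨hch, hanti⟩ := hcon
  let chains : Fin N → Finset (Finset (Fin N)) := fun a => univ.filter fun C =>
    (∀ x ∈ C, ∀ y ∈ C, x ≠ y → r x y ∨ r y x) ∧ a ∈ C ∧ ∀ x ∈ C, x ≠ a → r x a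
  let ht : Fin N → ℕ := fun a => (chains a).sup card
  have hmem : ∀ a, {a} ∈ chains a := by
    intro a
    simp only [chains, mem_filter, mem_univ, true_and, mem_singleton]
    exact ⟨fun x hx y hy hxy => absurd (hx.trans hy.symm) hxy, fun x hx hxa => absurd hx hxa⟩
  have hpos : ∀ a, 1 ≤ ht a := fun a => by
    have := le_sup (f := card) (hmem a)
    simpa [ht] using this
  have hle : ∀ a, ht a ≤ m := by
    intro a
    apply Finset.sup_le
    intro C hC
    by_contra hlt
    push Not at hlt
    obtain ⟨C', hC', hcard⟩ := exists_subset_card_eq (show m + 1 ≤ C.card from hlt)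
    simp only [chains, mem_filter, mem_univ, true_and] at hC
    obtain ⟨x, hx, y, hy, hxy, h1, h2⟩ := hch C' hcard
    rcases hC.1 x (hC' hx) y (hC' hy) hxy with h | h
    · exact h1 h
    · exact h2 h
  have hlt : ∀ a b, r a b → ht a < ht b := by
    intro a b hab
    obtain ⟨C, hC, hCc⟩ := exists_mem_eq_sup (chains a) ⟨_, hmem a⟩ card
    have hbC : b ∉ C := by
      intro hb
      simp only [chains, mem_filter, mem_univ, true_and] at hC
      by_cases hba : b = a
      · exact hirr a (hba ▸ hab)
      · exact hirr a (htr _ _ _ hab (hC.2.2 b hb hba))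
    have hins : insert b C ∈ chains b := by
      simp only [chains, mem_filter, mem_univ, true_and] at hC ⊢
      have hxb : ∀ x ∈ C, r x b := by
        intro x hx
        by_cases hxa : x = a
        · rw [hxa]; exact hab
        · exact htr _ _ _ (hC.2.2 x hx hxa) hab
      refine ⟨?_, mem_insert_self _ _, ?_⟩
      · intro x hx y hy hxy
        rcases mem_insert.1 hx with hx1 | hx1
        · rcases mem_insert.1 hy with hy1 | hy1
          · exact absurd (hx1.trans hy1.symm) hxy
          · rw [hx1]
            exact Or.inr (hxb y hy1)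
        · rcases mem_insert.1 hy with hy1 | hy1
          · rw [hy1]
            exact Or.inl (hxb x hx1)
          · exact hC.1 x hx1 y hy1 hxy
      · intro x hx hxne
        rcases mem_insert.1 hx with rfl | hx
        · exact absurd rfl hxne
        · exact hxb x hx
    have h1 := le_sup (f := card) hins
    rw [card_insert_of_notMem hbC] at h1
    change (chains a).sup card < (chains b).sup card
    omega
  have hmaps : ∀ a ∈ (univ : Finset (Fin N)), ht a ∈ Icc 1 m := fun a _ =>
    mem_Icc.2 ⟨hpos a, hle a⟩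
  obtain ⟨y, _, hy⟩ := exists_lt_card_fiber_of_mul_lt_card_of_maps_to hmaps
    (show (Icc 1 m).card * k < (univ : Finset (Fin N)).card by simpa using h)
  obtain ⟨C', hC', hcard⟩ := exists_subset_card_eq (show k + 1 ≤ _ from hy)
  obtain ⟨a, ha, b, hb, hab⟩ := hanti C' hcard
  have h1 := (mem_filter.1 (hC' ha)).2
  have h2 := (mem_filter.1 (hC' hb)).2
  have := hlt a b hab
  omega

/-- the Erdős–Szekeres theorem, in the weakly monotone form -/
theorem erdos_szekeres {N m : ℕ} (f : Fin N → ℤ) (h : m * m < N) :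
    ∃ e : Fin (m + 1) ↪o Fin N, Monotone (f ∘ e) ∨ Antitone (f ∘ e) := by
  rcases mirsky (m := m) (k := m) (fun i j : Fin N => i < j ∧ f i ≤ f j)
    (fun a h => lt_irrefl _ h.1) (fun a b c h1 h2 => ⟨h1.1.trans h2.1, h1.2.trans h2.2⟩) h with
    ⟨C, hC, hC'⟩ | ⟨C, hC, hC'⟩
  · refine ⟨C.orderEmbOfFin hC, Or.inl fun i j hij => ?_⟩
    rcases hij.eq_or_lt with rfl | hlt
    · exact le_rfl
    · have h1 : C.orderEmbOfFin hC i < C.orderEmbOfFin hC j := (C.orderEmbOfFin hC).strictMono hlt
      rcases hC' _ (C.orderEmbOfFin_mem hC i) _ (C.orderEmbOfFin_mem hC j) h1.ne with h2 | h2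
      · exact h2.2
      · exact absurd h2.1 (not_lt.2 h1.le)
  · refine ⟨C.orderEmbOfFin hC, Or.inr fun i j hij => ?_⟩
    rcases hij.eq_or_lt with rfl | hlt
    · exact le_rfl
    · have h1 : C.orderEmbOfFin hC i < C.orderEmbOfFin hC j := (C.orderEmbOfFin hC).strictMono hlt
      by_contra hn
      push Not at hn
      exact hC' _ (C.orderEmbOfFin_mem hC i) _ (C.orderEmbOfFin_mem hC j) ⟨h1, hn.le⟩

theorem monotone_points {r q : ℕ} (A : Finset (Fin (r + 1) → ℤ))
    (hA : q ^ (2 ^ r) < A.card) (j : ℕ) (hj : j ≤ r) :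
    ∃ p : Fin (q ^ (2 ^ (r - j)) + 1) → Fin (r + 1) → ℤ, Function.Injective p ∧
      (∀ i, p i ∈ A) ∧ ∀ c : Fin (r + 1), c.val ≤ j →
        Monotone (fun i => p i c) ∨ Antitone (fun i => p i c) := by
  induction j with
  | zero =>
    obtain ⟨B, hBA, hB⟩ := exists_subset_card_eq (show q ^ (2 ^ r) + 1 ≤ A.card from hA)
    have e : Fin (q ^ (2 ^ (r - 0)) + 1) ≃ B := by
      rw [Nat.sub_zero, ← hB]
      exact B.equivFin.symm
    let g : Fin (q ^ (2 ^ (r - 0)) + 1) → ℤ := fun i => (e i).1 0
    refine ⟨fun i => (e (Tuple.sort g i)).1, ?_, fun i => hBA (e _).2, fun c hc => Or.inl ?_⟩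
    · intro i i' h
      exact (Tuple.sort g).injective (e.injective (Subtype.ext h))
    · have hc0 : c = 0 := Fin.ext (by simpa using hc)
      subst hc0
      exact Tuple.monotone_sort g
  | succ j ih =>
    obtain ⟨p, hinj, hmem, hmono⟩ := ih (by omega)
    have hpow : q ^ (2 ^ (r - (j + 1))) * q ^ (2 ^ (r - (j + 1))) < q ^ (2 ^ (r - j)) + 1 := by
      rw [← pow_add, ← two_mul, ← pow_succ']
      have : r - (j + 1) + 1 = r - j := by omega
      rw [this]
      exact Nat.lt_succ_self _
    obtain ⟨e, he⟩ := erdos_szekeres (fun i => p i ⟨j + 1, by omega⟩) hpow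
    refine ⟨fun i => p (e i), fun i i' h => e.injective (hinj h), fun i => hmem _,
      fun c hc => ?_⟩
    rcases Nat.lt_or_ge c.val (j + 1) with h | h
    · rcases hmono c (by omega) with h1 | h1
      · exact Or.inl (h1.comp e.monotone)
      · exact Or.inr (h1.comp_monotone e.monotone)
    · have hcj : c = ⟨j + 1, by omega⟩ := Fin.ext (by simp; omega)
      rw [hcj]
      exact he

theorem upper {r q : ℕ} (S : Set (Fin (r + 1) → ℤ)) (hS : IsKGP (q + 1) (grid (r + 1)) S) :
    S.encard ≤ (q ^ (2 ^ r) : ℕ) := by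
  classical
  by_contra hcon
  push Not at hcon
  have h1 : ((q ^ (2 ^ r) + 1 : ℕ) : ℕ∞) ≤ S.encard := by
    push_cast
    exact Order.add_one_le_of_lt (by exact_mod_cast hcon)
  obtain ⟨T, hTS, hT⟩ := Set.exists_subset_encard_eq h1
  have hfin : T.Finite := Set.finite_of_encard_eq_coe hT
  have hcard : hfin.toFinset.card = q ^ (2 ^ r) + 1 := by
    rw [← Set.ncard_eq_toFinset_card T hfin, Set.ncard, hT]
    rfl
  obtain ⟨p, hinj, hmem, hmono⟩ := monotone_points (q := q) hfin.toFinset (by omega) r le_rfl
  have hexp : q ^ (2 ^ (r - r)) + 1 = q + 1 := by simp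
  have hlt : ∀ j, min j q < q ^ (2 ^ (r - r)) + 1 := fun j => by
    rw [hexp]
    have := min_le_right j q
    omega
  let f : ℕ → Fin (r + 1) → ℤ := fun j => p ⟨min j q, hlt j⟩
  have hf : ∀ i, Monotone (fun t => f t i) ∨ Antitone (fun t => f t i) := by
    intro i
    rcases hmono i (by omega) with h | h
    · left
      intro a b hab
      exact h (by rw [Fin.mk_le_mk]; exact min_le_min hab le_rfl)
    · right
      intro a b hab
      exact h (by rw [Fin.mk_le_mk]; exact min_le_min hab le_rfl)
  obtain ⟨w, hw, hw'⟩ := chain_geodesic f hf q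
  refine hS (univ.image p) ?_ ?_ ⟨_, _, w, hw, ?_⟩
  · intro x hx
    rw [mem_coe, mem_image] at hx
    obtain ⟨i, _, rfl⟩ := hx
    exact hTS (hfin.mem_toFinset.1 (hmem i))
  · rw [card_image_of_injective _ hinj, card_univ, Fintype.card_fin, hexp]
  · intro x hx
    rw [mem_image] at hx
    obtain ⟨i, _, rfl⟩ := hx
    have hi : i.val ≤ q := by
      have h2 := i.2
      omega
    have := hw' i.val hi
    have he : f i.val = p i := by
      simp only [f]
      congr 1
      exact Fin.ext (min_eq_left hi)
    rwa [he] at this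

/-! ## The lower bound -/

/-- the numbering of the sign vectors -/
noncomputable def code (r : ℕ) : (Fin r → Bool) ≃ Fin (2 ^ r) :=
  Fintype.equivFinOfCardEq (by simp)

/-- the `t`-th sign vector, with first entry `1` -/
noncomputable def sg (r : ℕ) (t : Fin (2 ^ r)) : Fin (r + 1) → ℤ :=
  Fin.cons 1 fun j => if (code r).symm t j then 1 else -1

theorem sg_zero (r : ℕ) (t : Fin (2 ^ r)) : sg r t 0 = 1 := rfl

theorem sg_cases (r : ℕ) (t : Fin (2 ^ r)) (j : Fin (r + 1)) : sg r t j = 1 ∨ sg r t j = -1 := by
  refine Fin.cases ?_ (fun j => ?_) j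
  · exact Or.inl rfl
  · simp only [sg, Fin.cons_succ]
    split_ifs
    · exact Or.inl rfl
    · exact Or.inr rfl

theorem sg_inj (r : ℕ) {t t' : Fin (2 ^ r)} (h : ∀ j, sg r t j = 1 ↔ sg r t' j = 1) : t = t' := by
  apply (code r).symm.injective
  funext j
  have h1 := h j.succ
  simp only [sg, Fin.cons_succ] at h1
  cases h2 : (code r).symm t j <;> cases h3 : (code r).symm t' j <;> simp [h2, h3] at h1 ⊢

/-- the point of the word `a` -/
noncomputable def pt (r q : ℕ) (a : Fin (2 ^ r) → Fin q) (j : Fin (r + 1)) : ℤ :=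
  ∑ t, sg r t j * (a t : ℤ) * (q : ℤ) ^ t.val

theorem geom (q : ℕ) (t : ℕ) : ∑ i ∈ range t, ((q : ℤ) - 1) * (q : ℤ) ^ i = (q : ℤ) ^ t - 1 := by
  induction t with
  | zero => simp
  | succ t ih =>
    rw [sum_range_succ, ih]
    ring

/-- the most significant different digit determines the signs of the differences -/
theorem top_digit {r q : ℕ} {a b : Fin (2 ^ r) → Fin q} {t : Fin (2 ^ r)} (hlt : a t < b t)
    (heq : ∀ t', t < t' → a t' = b t') (j : Fin (r + 1)) :
    0 < sg r t j * (pt r q b j - pt r q a j) := by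
  have hq : 0 < q := (a t).pos
  have hdiff : pt r q b j - pt r q a j =
      ∑ t', sg r t' j * ((b t' : ℤ) - (a t' : ℤ)) * (q : ℤ) ^ t'.val := by
    unfold pt
    rw [← sum_sub_distrib]
    exact sum_congr rfl fun t' _ => by ring
  have hsplit : ∑ t', sg r t' j * ((b t' : ℤ) - (a t' : ℤ)) * (q : ℤ) ^ t'.val =
      sg r t j * ((b t : ℤ) - (a t : ℤ)) * (q : ℤ) ^ t.val +
        ∑ t' ∈ Iio t, sg r t' j * ((b t' : ℤ) - (a t' : ℤ)) * (q : ℤ) ^ t'.val := by
    rw [← add_sum_erase _ _ (mem_univ t)]
    congr 1
    symm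
    apply sum_subset
    · intro x hx
      exact mem_erase.2 ⟨(mem_Iio.1 hx).ne, mem_univ _⟩
    · intro x hx hx'
      have h1 : t < x := by
        rcases lt_trichotomy x t with h | h | h
        · exact absurd (mem_Iio.2 h) hx'
        · exact absurd h (ne_of_mem_erase hx)
        · exact h
      rw [heq x h1, sub_self, mul_zero, zero_mul]
  have hs : sg r t j * sg r t j = 1 := by
    rcases sg_cases r t j with h | h <;> rw [h] <;> norm_num
  have habs : |∑ t' ∈ Iio t, sg r t' j * ((b t' : ℤ) - (a t' : ℤ)) * (q : ℤ) ^ t'.val| ≤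
      (q : ℤ) ^ t.val - 1 := by
    calc _ ≤ ∑ t' ∈ Iio t, |sg r t' j * ((b t' : ℤ) - (a t' : ℤ)) * (q : ℤ) ^ t'.val| :=
          abs_sum_le_sum_abs _ _
      _ ≤ ∑ t' ∈ Iio t, ((q : ℤ) - 1) * (q : ℤ) ^ t'.val := by
          apply sum_le_sum
          intro t' _
          rw [abs_mul, abs_mul, abs_of_nonneg (by positivity : (0 : ℤ) ≤ (q : ℤ) ^ t'.val)]
          have h1 : |sg r t' j| = 1 := by
            rcases sg_cases r t' j with h | h <;> rw [h] <;> norm_num
          rw [h1, one_mul]
          apply mul_le_mul_of_nonneg_right _ (by positivity)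
          have h2 := (a t').2
          have h3 := (b t').2
          rw [abs_le]
          constructor <;> omega
      _ = ∑ i ∈ (Iio t).map Fin.valEmbedding, ((q : ℤ) - 1) * (q : ℤ) ^ i := by
          rw [sum_map]
          rfl
      _ = ∑ i ∈ range t.val, ((q : ℤ) - 1) * (q : ℤ) ^ i := by
          rw [Fin.map_valEmbedding_Iio]
          congr 1
          ext i
          simp
      _ = _ := geom q t.val
  rw [hdiff, hsplit]
  set X := ∑ t' ∈ Iio t, sg r t' j * ((b t' : ℤ) - (a t' : ℤ)) * (q : ℤ) ^ t'.val
  have h1 : (1 : ℤ) ≤ (b t : ℤ) - (a t : ℤ) := by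
    have : (a t).val < (b t).val := hlt
    omega
  have h2 : (0 : ℤ) < (q : ℤ) ^ t.val := by positivity
  have h3 : (q : ℤ) ^ t.val ≤ ((b t : ℤ) - (a t : ℤ)) * (q : ℤ) ^ t.val := by nlinarith
  have h4 : sg r t j * (sg r t j * ((b t : ℤ) - (a t : ℤ)) * (q : ℤ) ^ t.val + X) =
      ((b t : ℤ) - (a t : ℤ)) * (q : ℤ) ^ t.val + sg r t j * X := by
    linear_combination ((b t : ℤ) - (a t : ℤ)) * (q : ℤ) ^ t.val * hs
  rw [h4]
  have h5 := abs_le.1 habs
  rcases sg_cases r t j with h | h <;> rw [h] <;> linarith

/-- two different words: there is a most significant different digit -/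
theorem exists_top {N q : ℕ} {a b : Fin N → Fin q} (h : a ≠ b) :
    ∃ t, a t ≠ b t ∧ ∀ t', t < t' → a t' = b t' := by
  have hne : (univ.filter fun t => a t ≠ b t).Nonempty := by
    obtain ⟨t, ht⟩ := Function.ne_iff.1 h
    exact ⟨t, mem_filter.2 ⟨mem_univ _, ht⟩⟩
  refine ⟨(univ.filter fun t => a t ≠ b t).max' hne, (mem_filter.1 (max'_mem _ hne)).2,
    fun t' ht' => ?_⟩
  by_contra hcon
  have hm : t' ∈ univ.filter fun t => a t ≠ b t := mem_filter.2 ⟨mem_univ _, hcon⟩
  exact absurd ht' (not_lt.2 (le_max' _ t' hm))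

theorem pt_inj (r q : ℕ) : Function.Injective (pt r q) := by
  intro a b hab
  by_contra hne
  obtain ⟨t, ht, heq⟩ := exists_top hne
  rcases lt_or_gt_of_ne ht with h | h
  · have := top_digit h heq 0
    rw [hab, sub_self, mul_zero] at this
    exact lt_irrefl _ this
  · have := top_digit h (fun t' h' => (heq t' h').symm) 0
    rw [hab, sub_self, mul_zero] at this
    exact lt_irrefl _ this

theorem lower_kgp (r q : ℕ) : IsKGP (q + 1) (grid (r + 1)) (Set.range (pt r q)) := by
  classical
  rintro T hT hcard ⟨u, v, w, hw, hsup⟩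
  -- the words of the points of `T`
  let A : Finset (Fin (2 ^ r) → Fin q) := univ.filter fun a => pt r q a ∈ T
  have hA : A.card = q + 1 := by
    rw [← hcard, ← card_image_of_injective A (pt_inj r q)]
    congr 1
    ext x
    simp only [A, mem_image, mem_filter, mem_univ, true_and]
    constructor
    · rintro ⟨a, ha, rfl⟩
      exact ha
    · intro hx
      obtain ⟨a, rfl⟩ := hT hx
      exact ⟨a, hx, rfl⟩
  -- the sign pattern of the geodesic
  have hpat : ∀ a ∈ A, ∀ b ∈ A, ∀ t, a t < b t → (∀ t', t < t' → a t' = b t') →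
      ∀ j, sg r t j = 1 ↔ ((u 0 < v 0 ∧ u j < v j) ∨ (v 0 < u 0 ∧ v j < u j)) := by
    intro a ha b hb t hlt heq j
    have h0 := top_digit hlt heq 0
    have hj := top_digit hlt heq j
    rw [sg_zero, one_mul] at h0
    have ha' := hsup _ (mem_filter.1 ha).2
    have hb' := hsup _ (mem_filter.1 hb).2
    rcases between w hw ha' hb' with h | h
    · have e0 := h 0
      have ej := h j
      rcases sg_cases r t j with hs | hs
      · rw [hs, one_mul] at hj
        constructor
        · intro _
          left
          constructor <;> omega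
        · intro _
          exact hs
      · rw [hs] at hj
        constructor
        · intro h1
          rw [hs] at h1
          norm_num at h1
        · intro h1
          omega
    · have e0 := h 0
      have ej := h j
      rcases sg_cases r t j with hs | hs
      · rw [hs, one_mul] at hj
        constructor
        · intro _
          right
          constructor <;> omega
        · intro _
          exact hs
      · rw [hs] at hj
        constructor
        · intro h1
          rw [hs] at h1
          norm_num at h1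
        · intro h1
          omega
  have hpat' : ∀ a ∈ A, ∀ b ∈ A, ∀ t, a t ≠ b t → (∀ t', t < t' → a t' = b t') →
      ∀ j, sg r t j = 1 ↔ ((u 0 < v 0 ∧ u j < v j) ∨ (v 0 < u 0 ∧ v j < u j)) := by
    intro a ha b hb t hne heq
    rcases lt_or_gt_of_ne hne with h | h
    · exact hpat a ha b hb t h heq
    · exact hpat b hb a ha t h fun t' h' => (heq t' h').symm
  -- if `A` has two elements then all pairs have the same top digit
  by_cases h2 : ∃ a ∈ A, ∃ b ∈ A, a ≠ b
  · obtain ⟨a₀, ha₀, b₀, hb₀, hne₀⟩ := h2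
    obtain ⟨t₀, ht₀, heq₀⟩ := exists_top hne₀
    have hinj : Set.InjOn (fun a : Fin (2 ^ r) → Fin q => a t₀) (A : Set _) := by
      intro a ha b hb hab
      by_contra hne
      obtain ⟨t, ht, heq⟩ := exists_top hne
      have : t = t₀ := sg_inj r fun j =>
        (hpat' a ha b hb t ht heq j).trans (hpat' a₀ ha₀ b₀ hb₀ t₀ ht₀ heq₀ j).symm
      subst this
      exact ht hab
    have := card_le_card_of_injOn _ (fun a _ => mem_coe.2 (mem_univ _)) hinj
    rw [hA, card_univ, Fintype.card_fin] at this
    omega
  · push Not at h2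
    have h1 : A.card ≤ 1 := card_le_one.2 h2
    have hq : q = 0 := by omega
    subst hq
    obtain ⟨a, _⟩ := card_pos.1 (show 0 < A.card by omega)
    exact (a ⟨0, by positivity⟩).elim0

/-- **The `k`-general position number of the integer grid.** For all `k ≥ 2` and `n ≥ 1` it is
`(k - 1) ^ (2 ^ (n - 1))`. -/
theorem result : ∀ k n : ℕ, 2 ≤ k → 1 ≤ n →
    gpk k (grid n) = (((k - 1) ^ (2 ^ (n - 1)) : ℕ) : ℕ∞) := by
  intro k n hk hn
  obtain ⟨r, rfl⟩ : ∃ r, n = r + 1 := ⟨n - 1, by omega⟩
  obtain ⟨q, rfl⟩ : ∃ q, k = q + 1 := ⟨k - 1, by omega⟩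
  rw [Nat.add_sub_cancel, Nat.add_sub_cancel]
  apply le_antisymm
  · exact iSup_le fun S => upper S.1 S.2
  · have h1 : (Set.range (pt r q)).encard = ((q ^ (2 ^ r) : ℕ) : ℕ∞) := by
      rw [← Set.image_univ, (pt_inj r q).encard_image, Set.encard_univ]
      simp
    rw [← h1]
    exact le_iSup (fun S : {S : Set (Fin (r + 1) → ℤ) // IsKGP (q + 1) (grid (r + 1)) S} =>
      S.1.encard) ⟨_, lower_kgp r q⟩

end Pool.Agent.Results.MP_2aa471_co.GridGeneralPosition
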